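import Pool.Agent.H11.NZ.Targets

/-!
# Board `nz_modules`, module DVA
-/

set_option autoImplicit false

open Equiv (Perm)

namespace Pool.Agent.H60.NZ.DVA

open Pool.Agent.H11.NZ Pool.Agent.H11.NY

/-- Commutators with a perfect group which act by scalars are trivial. -/
theorem comm_of_scal {L K V : Type} [Group L] [Field K] [AddCommGroup V] [Module K V]
    (ρ : L →* Module.End K V) (hV : ∃ v : V, v ≠ 0) (D : Subgroup L) (hD : ⁅D, D⁆ = D) (x : L)
    (hx : ∀ d ∈ D, ∃ z : K, ∀ v : V, ρ (x * d * x⁻¹ * d⁻¹) v = z • v) :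
    ∀ d ∈ D, ρ x * ρ d = ρ d * ρ x := by
  obtain ⟨v₀, hv₀⟩ := hV
  have key : ∀ d ∈ D, ∃ z : K, z ≠ 0 ∧ ρ x * ρ d = z • (ρ d * ρ x) := by
    intro d hd
    obtain ⟨z, hz⟩ := hx d hd
    have h1 : ρ (x * d * x⁻¹ * d⁻¹) = z • (1 : Module.End K V) := by
      ext v
      rw [hz v, LinearMap.smul_apply, Module.End.one_apply]
    have h2 : ρ x * ρ d = z • (ρ d * ρ x) := by
      have : x * d = (x * d * x⁻¹ * d⁻¹) * (d * x) := by group
      rw [← map_mul, this, map_mul, h1, map_mul, smul_mul_assoc, one_mul]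
    refine ⟨z, ?_, h2⟩
    rintro rfl
    rw [zero_smul] at h2
    have h3 : ρ (d⁻¹ * x⁻¹) * (ρ x * ρ d) = 1 := by
      rw [← map_mul, ← map_mul, ← map_one ρ]
      congr 1
      group
    rw [h2, mul_zero] at h3
    have h4 := congrArg (fun f : Module.End K V => f v₀) h3
    simp only [LinearMap.zero_apply, Module.End.one_apply] at h4
    exact hv₀ h4.symm
  have keyinv : ∀ (z : K) (d : L), z ≠ 0 → ρ x * ρ d = z • (ρ d * ρ x) →
      ρ x * ρ d⁻¹ = z⁻¹ • (ρ d⁻¹ * ρ x) := by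
    intro z d hz h
    have h1 : ρ d⁻¹ * (ρ x * ρ d) * ρ d⁻¹ = ρ d⁻¹ * ρ x := by
      rw [← map_mul, ← map_mul, ← map_mul, ← map_mul]
      congr 1
      group
    have h2 : ρ d⁻¹ * (z • (ρ d * ρ x)) * ρ d⁻¹ = z • (ρ x * ρ d⁻¹) := by
      rw [mul_smul_comm, smul_mul_assoc, ← map_mul, ← map_mul, ← map_mul, ← map_mul]
      congr 2
      group
    rw [h, h2] at h1
    rw [← h1, smul_smul, inv_mul_cancel₀ hz, one_smul]
  have hle : ⁅D, D⁆ ≤ ({
      carrier := {y : L | ρ x * ρ y = ρ y * ρ x}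
      mul_mem' := by
        intro a b ha hb
        change ρ x * ρ a = ρ a * ρ x at ha
        change ρ x * ρ b = ρ b * ρ x at hb
        change ρ x * ρ (a * b) = ρ (a * b) * ρ x
        rw [map_mul, ← mul_assoc, ha, mul_assoc, hb, mul_assoc]
      one_mem' := by simp
      inv_mem' := by
        intro a ha
        change ρ x * ρ a = ρ a * ρ x at ha
        change ρ x * ρ a⁻¹ = ρ a⁻¹ * ρ x
        have := keyinv 1 a one_ne_zero (by rw [one_smul]; exact ha)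
        rw [this, inv_one, one_smul] } : Subgroup L) := by
    rw [Subgroup.commutator_le]
    intro d hd d' hd'
    obtain ⟨z, hz, h⟩ := key d hd
    obtain ⟨z', hz', h'⟩ := key d' hd'
    have hi := keyinv z d hz h
    have hi' := keyinv z' d' hz' h'
    change ρ x * ρ (d * d' * d⁻¹ * d'⁻¹) = ρ (d * d' * d⁻¹ * d'⁻¹) * ρ x
    rw [map_mul, map_mul, map_mul]
    calc ρ x * (ρ d * ρ d' * ρ d⁻¹ * ρ d'⁻¹)
        = (ρ x * ρ d) * ρ d' * ρ d⁻¹ * ρ d'⁻¹ := by simp only [mul_assoc]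
      _ = z • (ρ d * (ρ x * ρ d') * ρ d⁻¹ * ρ d'⁻¹) := by
          rw [h]; simp only [mul_assoc, smul_mul_assoc]
      _ = z • z' • (ρ d * ρ d' * (ρ x * ρ d⁻¹) * ρ d'⁻¹) := by
          rw [h']; simp only [mul_assoc, smul_mul_assoc, mul_smul_comm]
      _ = z • z' • z⁻¹ • (ρ d * ρ d' * ρ d⁻¹ * (ρ x * ρ d'⁻¹)) := by
          rw [hi]; simp only [mul_assoc, smul_mul_assoc, mul_smul_comm]
      _ = z • z' • z⁻¹ • z'⁻¹ • (ρ d * ρ d' * ρ d⁻¹ * ρ d'⁻¹ * ρ x) := by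
          rw [hi']; simp only [mul_assoc, mul_smul_comm]
      _ = ρ d * ρ d' * ρ d⁻¹ * ρ d'⁻¹ * ρ x := by
          simp only [smul_smul]
          have : z * (z' * (z⁻¹ * z'⁻¹)) = 1 := by field_simp
          rw [this, one_smul]
  intro d hd
  rw [← hD] at hd
  exact hle hd

theorem pf_dva : T_DVA := by
  intro L I _ _ _ Z M T hR K V _ _ _ ρ hV hS i k hik x hx y hy
  obtain ⟨-, -, -, hperf, -, -, hcom, -, -⟩ := hR
  exact comm_of_scal ρ hV (T k) (hperf k) x (fun d hd => hS _ (hcom i k hik x hx d hd)) y hy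

end Pool.Agent.H60.NZ.DVA
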