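import Pool.Agent.H60.NZ.DVA

/-!
# Board `nz_modules`, module KA
-/

set_option autoImplicit false

open Equiv (Perm)

namespace Pool.Agent.H60.NZ.KA

open Pool.Agent.H11.NZ Pool.Agent.H11.NY Pool.Agent.H60.NZ.DVA

lemma noncommProd_perm {α β : Type} [Monoid β] (S : Finset α) (f : α → β) (e : α ≃ α)
    (he : S.map e.toEmbedding = S) (h1 : (S : Set α).Pairwise (Function.onFun Commute fun s => f (e s)))
    (h2 : (S : Set α).Pairwise (Function.onFun Commute f)) :
    S.noncommProd (fun s => f (e s)) h1 = S.noncommProd f h2 := by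
  have h3 : Multiset.map (fun s => f (e s)) S.1 = Multiset.map f S.1 := by
    conv_rhs => rw [← he]
    rw [Finset.map_val, Multiset.map_map]
    rfl
  unfold Finset.noncommProd
  congr 1

theorem pf_ka (hXP : T_XP) (hC2 : T_C2) : T_KA := by
  intro L Ω _ _ _ _ ψ X hX K V _ _ _ _ ρ hV hS q a hq h5 hcard ha
  have hXn : X.Normal := hX.1
  have hperf : ⁅X, X⁆ = X := hXP L Ω ψ X (by omega) hX
  have part1 : ∀ k ∈ ψ.ker, ∀ x ∈ X, ρ k * ρ x = ρ x * ρ k := by
    intro k hk
    refine comm_of_scal ρ hV X hperf k (fun d hd => hS _ ⟨?_, ?_⟩)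
    · have hk' : ψ k = 1 := hk
      show ψ (k * d * k⁻¹ * d⁻¹) = 1
      rw [map_mul, map_mul, map_mul, map_inv, map_inv, hk']
      group
    · exact X.mul_mem (hXn.conj_mem d hd k) (X.inv_mem hd)
  refine ⟨part1, ?_⟩
  intro xa hxa hψ h hah
  have scal_mul : ∀ x : L, x ∈ ψ.ker ⊓ X → ∃ z : K, ρ x = z • (1 : Module.End K V) := by
    intro x hx
    obtain ⟨z, hz⟩ := hS x hx
    exact ⟨z, by ext v; rw [hz v, LinearMap.smul_apply, Module.End.one_apply]⟩
  by_cases hψa : ψ a = 1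
  · obtain ⟨z, hz⟩ := scal_mul xa ⟨by show ψ xa = 1; rw [hψ, hψa], hxa⟩
    rw [hz, smul_mul_assoc, one_mul, mul_smul_comm, mul_one]
  -- the canonical lifts
  obtain ⟨c, hc⟩ := hC2 q X Ω (ψ.comp X.subtype) K V (ρ.comp X.subtype) hq h5 hcard (by
    intro σ
    have : σ ∈ X.map ψ := by rw [hX.2.1]; trivial
    obtain ⟨x, hx, hxσ⟩ := this
    exact ⟨⟨x, hx⟩, hxσ⟩) hV (fun x hx => hS _ ⟨hx, x.2⟩)
  -- every element of the group permutes the lifts
  have key : ∀ (y : L) (s : Perm Ω), s.IsCycle → s.support.card = q →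
      ρ y * c s = c ((ψ y : Perm Ω) * s * (ψ y : Perm Ω)⁻¹) * ρ y := by
    intro y s hs hsc
    obtain ⟨⟨d, hd, z, hz, hcs⟩, -, -, h4⟩ := hc s hs hsc
    have : ψ y ∈ X.map ψ := by rw [hX.2.1]; trivial
    obtain ⟨x, hx, hxy⟩ := this
    have h5 := h4 ⟨x, hx⟩
    have h6 : (ρ.comp X.subtype) ⟨x, hx⟩ = ρ x := rfl
    have h7 : ((ψ.comp X.subtype) ⟨x, hx⟩ : alternatingGroup Ω) = ψ x := rfl
    rw [h6, h7, hxy] at h5
    have hk : x⁻¹ * y ∈ ψ.ker := by
      show ψ (x⁻¹ * y) = 1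
      rw [map_mul, map_inv, hxy]
      group
    have h8 : ρ (x⁻¹ * y) * c s = c s * ρ (x⁻¹ * y) := by
      rw [hcs]
      have h9 : (ρ.comp X.subtype) d = ρ (d : L) := rfl
      rw [h9, mul_smul_comm, smul_mul_assoc, part1 _ hk _ d.2]
    have h10 : ρ y = ρ x * ρ (x⁻¹ * y) := by
      rw [← map_mul]
      congr 1
      group
    rw [h10, mul_assoc, h8, ← mul_assoc, h5, mul_assoc]
  -- the cycles of `ψ a`
  set σ : Perm Ω := (ψ a : Perm Ω) with hσ
  set S := σ.cycleFactorsFinset with hSdef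
  have hcyc : ∀ s ∈ S, s.IsCycle ∧ s.support.card = q := by
    intro s hs
    have h1 : s.IsCycle := (Equiv.Perm.mem_cycleFactorsFinset_iff.1 hs).1
    refine ⟨h1, ?_⟩
    have h2 : s.support.card ∈ σ.cycleType := by
      rw [Equiv.Perm.cycleType_def]
      exact Multiset.mem_map_of_mem _ hs
    have h3 : s.support.card ∣ q := by
      refine (Equiv.Perm.dvd_of_mem_cycleType h2).trans (orderOf_dvd_of_pow_eq_one ?_)
      rw [hσ, ← Subgroup.coe_pow, ← map_pow, ha, map_one, Subgroup.coe_one]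
    rcases (Nat.dvd_prime hq).1 h3 with h4 | h4
    · have := h1.two_le_card_support
      omega
    · exact h4
  have hcomc : (S : Set (Perm Ω)).Pairwise (Function.onFun Commute c) := by
    intro s hs s' hs' hne
    obtain ⟨hs1, hs2⟩ := hcyc s hs
    obtain ⟨hs1', hs2'⟩ := hcyc s' hs'
    obtain ⟨⟨d, hd, z, hz, hcs⟩, -, -, -⟩ := hc s hs1 hs2
    have h1 := key (d : L) s' hs1' hs2'
    have h2 : (ψ (d : L) : Perm Ω) = s := hd
    have h3 : Commute s s' := (Equiv.Perm.cycleFactorsFinset_mem_commute σ) hs hs' hne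
    rw [h2, h3.eq, mul_inv_cancel_right] at h1
    show c s * c s' = c s' * c s
    have h9 : (ρ.comp X.subtype) d = ρ (d : L) := rfl
    rw [hcs, h9, smul_mul_assoc, mul_smul_comm, h1]
  have hcomi : (S : Set (Perm Ω)).Pairwise (Function.onFun Commute id) :=
    Equiv.Perm.cycleFactorsFinset_mem_commute σ
  -- the product of the lifts
  have hP : ∀ T : Finset (Perm Ω), T ⊆ S → ∀ (h1 : (T : Set (Perm Ω)).Pairwise
      (Function.onFun Commute c)) (h2 : (T : Set (Perm Ω)).Pairwise (Function.onFun Commute id)),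
      ∃ d ∈ X, ∃ z : K, z ≠ 0 ∧ T.noncommProd c h1 = z • ρ d ∧
        (ψ d : Perm Ω) = T.noncommProd id h2 := by
    intro T
    induction T using Finset.induction_on with
    | empty =>
      intro _ h1 h2
      exact ⟨1, X.one_mem, 1, one_ne_zero, by simp, by simp⟩
    | insert s T hsT ih =>
      intro hTS h1 h2
      obtain ⟨d, hd, z, hz, e1, e2⟩ := ih (fun x hx => hTS (Finset.mem_insert_of_mem hx))
        (h1.mono fun x hx => Finset.mem_insert_of_mem hx)
        (h2.mono fun x hx => Finset.mem_insert_of_mem hx)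
      obtain ⟨hs1, hs2⟩ := hcyc s (hTS (Finset.mem_insert_self _ _))
      obtain ⟨⟨d', hd', z', hz', hcs⟩, -, -, -⟩ := hc s hs1 hs2
      refine ⟨d' * d, X.mul_mem d'.2 hd, z' * z, mul_ne_zero hz' hz, ?_, ?_⟩
      · rw [Finset.noncommProd_insert_of_notMem _ _ _ _ hsT, e1, hcs]
        have h9 : (ρ.comp X.subtype) d' = ρ (d' : L) := rfl
        rw [h9, map_mul, smul_mul_assoc, mul_smul_comm, smul_smul]
      · rw [Finset.noncommProd_insert_of_notMem _ _ _ _ hsT, ← e2, map_mul, Subgroup.coe_mul]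
        have : (ψ (d' : L) : Perm Ω) = s := hd'
        rw [this]
        rfl
  obtain ⟨d, hd, z, hz, hPz, hψd⟩ := hP S (Finset.Subset.refl _) hcomc hcomi
  have hψd' : (ψ d : Perm Ω) = σ := by
    rw [hψd]
    exact Equiv.Perm.cycleFactorsFinset_noncommProd σ
  -- the product commutes with `h`
  have hcomm : (ψ h : Perm Ω) * σ * (ψ h : Perm Ω)⁻¹ = σ := by
    have h1 : ψ h * ψ a = ψ a * ψ h := by rw [← map_mul, ← map_mul, hah]
    have h2 : (ψ h : Perm Ω) * σ = σ * (ψ h : Perm Ω) := by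
      rw [hσ, ← Subgroup.coe_mul, h1, Subgroup.coe_mul]
    rw [h2, mul_inv_cancel_right]
  let e : Perm Ω ≃ Perm Ω := (MulAut.conj (ψ h : Perm Ω)).toEquiv
  have heS : S.map e.toEmbedding = S := by
    have h1 : ∀ τ : Perm Ω, τ * σ * τ⁻¹ = σ → ∀ s ∈ S, τ * s * τ⁻¹ ∈ S := by
      intro τ hτ s hs
      have h2 := (Equiv.Perm.mem_cycleFactorsFinset_conj σ τ s).2 hs
      rwa [hτ] at h2
    have h3 : S.map e.toEmbedding ⊆ S := by
      intro s hs
      rw [Finset.mem_map] at hs
      obtain ⟨s', hs', rfl⟩ := hs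
      exact h1 _ hcomm s' hs'
    exact Finset.eq_of_subset_of_card_le h3 (by rw [Finset.card_map])
  have hcome : (S : Set (Perm Ω)).Pairwise (Function.onFun Commute fun s => c (e s)) := by
    intro s hs s' hs' hne
    have h1 : e s ∈ S := by rw [← heS]; exact Finset.mem_map_of_mem _ hs
    have h2 : e s' ∈ S := by rw [← heS]; exact Finset.mem_map_of_mem _ hs'
    exact hcomc h1 h2 (fun h => hne (e.injective h))
  have hconj : ∀ T : Finset (Perm Ω), T ⊆ S → ∀ (h1 : (T : Set (Perm Ω)).Pairwise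
      (Function.onFun Commute c)) (h2 : (T : Set (Perm Ω)).Pairwise
      (Function.onFun Commute fun s => c (e s))),
      ρ h * T.noncommProd c h1 = T.noncommProd (fun s => c (e s)) h2 * ρ h := by
    intro T
    induction T using Finset.induction_on with
    | empty => intro _ h1 h2; simp
    | insert s T hsT ih =>
      intro hTS h1 h2
      have e1 := ih (fun x hx => hTS (Finset.mem_insert_of_mem hx))
        (h1.mono fun x hx => Finset.mem_insert_of_mem hx)
        (h2.mono fun x hx => Finset.mem_insert_of_mem hx)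
      obtain ⟨hs1, hs2⟩ := hcyc s (hTS (Finset.mem_insert_self _ _))
      rw [Finset.noncommProd_insert_of_notMem _ _ _ _ hsT,
        Finset.noncommProd_insert_of_notMem _ _ _ _ hsT, ← mul_assoc, key h s hs1 hs2, mul_assoc,
        e1, mul_assoc]
      rfl
  have h1 := hconj S (Finset.Subset.refl _) hcomc hcome
  rw [noncommProd_perm S c e heS hcome hcomc, hPz, mul_smul_comm, smul_mul_assoc] at h1
  have h2 : ρ h * ρ d = ρ d * ρ h := by
    have h3 := congrArg (fun f => z⁻¹ • f) h1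
    simp only [smul_smul, inv_mul_cancel₀ hz, one_smul] at h3
    exact h3
  obtain ⟨w, hw⟩ := scal_mul (xa * d⁻¹) ⟨by
    show ψ (xa * d⁻¹) = 1
    rw [map_mul, map_inv, hψ]
    have : ψ d = ψ a := Subtype.ext hψd'
    rw [this, mul_inv_cancel], X.mul_mem hxa (X.inv_mem hd)⟩
  have h4 : ρ xa = w • ρ d := by
    have : xa = xa * d⁻¹ * d := by group
    rw [this, map_mul, hw, smul_mul_assoc, one_mul]
  rw [h4, smul_mul_assoc, mul_smul_comm, h2]

end Pool.Agent.H60.NZ.KA
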